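import Pool.Agent.Lib.MP_2b7cb2_co.Main

namespace Pool.Agent.Results.MP_2b7cb2_co.VirusSatLinear

open Pool.Agent.MP_2b7cb2_co

/-- For all `4 ≤ s ≤ t - 2`: there are `K^s_t`-saturated graphs on `n` vertices with at most
`(t + s - 3) n / 2 + O(1)` edges, for all large `n`; hence `sat(n, K^s_t) - (t + s - 2) n / 2`
tends to `-∞` and is not bounded. -/
theorem result (s t : ℕ) (hs : 4 ≤ s) (hst : s + 2 ≤ t) :
    (∀ n : ℕ, s + t ≤ n → (s - 2) + (t - s + 5) * (t - s + 7) ≤ n →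
      (∃ G : SimpleGraph (Fin n), IsSaturated (virus s t) G ∧
        2 * G.edgeSet.ncard + t * (s - 2) ≤ (t + s - 3) * n + (t - s + 5) * (t - s + 7)) ∧
      2 * sat n (virus s t) + t * (s - 2) ≤ (t + s - 3) * n + (t - s + 5) * (t - s + 7)) ∧
    Filter.Tendsto (fun n : ℕ => (sat n (virus s t) : ℝ) - ((t : ℝ) + s - 2) / 2 * n)
      Filter.atTop Filter.atBot ∧
    ¬ ∃ C : ℝ, ∀ n : ℕ, s + t ≤ n →
      |(sat n (virus s t) : ℝ) - ((t : ℝ) + s - 2) / 2 * n| ≤ C :=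
  ⟨fun n hn hn2 => ⟨exists_saturated_le s t hs hst n hn hn2, sat_le s t hs hst n hn hn2⟩,
    tendsto_atBot s t hs hst, unbounded s t hs hst⟩

end Pool.Agent.Results.MP_2b7cb2_co.VirusSatLinear
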